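import Mathlib
import Pool.Agent.Y863.AU.Arr

/-! Four points without good differences, and the local conditions for four iterates. -/

set_option autoImplicit false

namespace Pool.Agent.K1H50.NP

open Finset Pool.Agent.W25.IT Pool.Agent.Y863.AA Pool.Agent.Y863.AU

theorem step (J V : Finset ℕ) (hV : V.Nonempty) : ∃ x ∈ V, ∃ V' ⊆ V,
    (∀ v ∈ V', x < v ∧ v - x ∉ J) ∧ V.card ≤ V'.card + (J.card + 1) := by
  classical
  refine ⟨V.min' hV, V.min'_mem hV, V.filter (fun v => V.min' hV < v ∧ v - V.min' hV ∉ J),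
    filter_subset _ _, fun v hv => (mem_filter.1 hv).2, ?_⟩
  have h1 : V ⊆ V.filter (fun v => V.min' hV < v ∧ v - V.min' hV ∉ J) ∪
      insert (V.min' hV) (J.image (fun j => V.min' hV + j)) := by
    intro v hv
    rw [mem_union, mem_filter, mem_insert, mem_image]
    have h2 := V.min'_le v hv
    by_cases h3 : v = V.min' hV
    · right; left; exact h3
    · by_cases h4 : v - V.min' hV ∈ J
      · right; right
        exact ⟨_, h4, by omega⟩
      · left
        exact ⟨hv, by omega, h4⟩
  refine (card_le_card h1).trans ((card_union_le _ _).trans (Nat.add_le_add_left ?_ _))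
  exact (card_insert_le _ _).trans (Nat.add_le_add_right card_image_le _)

theorem four (J V : Finset ℕ) (h : 3 * (J.card + 1) < V.card) : ∃ e : Fin 4 → ℕ, StrictMono e ∧
    (∀ i, e i ∈ V) ∧ ∀ i j, i < j → e j - e i ∉ J := by
  obtain ⟨x1, hx1, V1, hV1, h1, hc1⟩ := step J V (card_pos.1 (by omega))
  obtain ⟨x2, hx2, V2, hV2, h2, hc2⟩ := step J V1 (card_pos.1 (by omega))
  obtain ⟨x3, hx3, V3, hV3, h3, hc3⟩ := step J V2 (card_pos.1 (by omega))
  obtain ⟨x4, hx4⟩ := card_pos.1 (by omega : 0 < V3.card)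
  have a12 := h1 x2 hx2
  have a13 := h1 x3 (hV2 hx3)
  have a14 := h1 x4 (hV2 (hV3 hx4))
  have a23 := h2 x3 hx3
  have a24 := h2 x4 (hV3 hx4)
  have a34 := h3 x4 hx4
  refine ⟨![x1, x2, x3, x4], ?_, ?_, ?_⟩
  · intro i j hij
    fin_cases i <;> fin_cases j <;> first | exact absurd hij (by decide) | (simp; omega)
  · intro i
    fin_cases i
    · exact hx1
    · exact hV1 hx2
    · exact hV1 (hV2 hx3)
    · exact hV1 (hV2 (hV3 hx4))
  · intro i j hij
    fin_cases i <;> fin_cases j <;> first | exact absurd hij (by decide) | skip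
    · exact a12.2
    · exact a13.2
    · exact a14.2
    · exact a23.2
    · exact a24.2
    · exact a34.2

theorem adE4 {h : Af} (hA : h.Adm) (e : Fin 4 → ℕ)
    (h3 : ¬ (3 ∣ h.d - 1 ∧ ¬ 3 ∣ h.a) ∨ ∀ i, e i % 3 ≠ 2) : AdE e h.a h.d := by
  classical
  intro p hp
  apply iter_admissible hA.1 hA.2 e hp
  intro hp3 hpd hpa
  by_cases hp5 : p = 3
  · subst hp5
    rcases h3 with h3 | h3
    · exact absurd ⟨by exact_mod_cast hpd, by exact_mod_cast hpa⟩ h3
    · exact iter_miss e hp hpd hpa 2 (fun i hi => h3 i hi)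
  · have h4 : 4 < p := by
      by_contra hlt
      have : p = 4 := by omega
      rw [this] at hp
      revert hp; norm_num
    obtain ⟨r, hr1, hr2⟩ := exists_mem_notMem_of_card_lt_card
      (s := (univ : Finset (Fin 4)).image (fun i => e i % p)) (t := range p) (by
        rw [card_range]
        refine lt_of_le_of_lt card_image_le ?_
        rw [card_univ, Fintype.card_fin]
        exact h4)
    refine iter_miss e hp hpd hpa r (fun i hi => hr2 ?_)
    rw [mem_image]
    refine ⟨i, mem_univ _, ?_⟩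
    have h5 : e i % p = r % p := hi
    rw [h5]
    exact Nat.mod_eq_of_lt (mem_range.1 hr1)

theorem cardV (N : ℕ) : ((range N).filter (fun e => e % 3 ≠ 2)).card = N - N / 3 := by
  induction N with
  | zero => simp
  | succ N ih =>
    rw [range_add_one, filter_insert]
    split_ifs with h
    · rw [card_insert_of_notMem (by simp), ih]; omega
    · rw [ih]; omega

/-- the number of the iterates which are considered -/
noncomputable def Rw (n : ℕ) (h : Af) : ℕ :=
  open Classical in if 3 ∣ h.d - 1 ∧ ¬ 3 ∣ h.a then 9 * n / 2 else 3 * n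

theorem Rw_le (n : ℕ) (h : Af) : Rw n h ≤ 9 * n / 2 := by
  unfold Rw
  split_ifs <;> omega

/-- four exponents with the local conditions and without good differences -/
theorem four' {h : Af} (hA : h.Adm) {n : ℕ} (J : Finset ℕ) (hJ : J.card < n) : ∃ e : Fin 4 → ℕ,
    StrictMono e ∧ (∀ i, e i ≤ Rw n h) ∧ AdE e h.a h.d ∧ ∀ i j, i < j → e j - e i ∉ J := by
  by_cases h3 : 3 ∣ h.d - 1 ∧ ¬ 3 ∣ h.a
  · obtain ⟨e, he1, he2, he3⟩ := four J ((range (9 * n / 2 + 1)).filter (fun e => e % 3 ≠ 2)) (by
      rw [cardV]; omega)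
    refine ⟨e, he1, fun i => ?_, adE4 hA e (Or.inr fun i => (mem_filter.1 (he2 i)).2), he3⟩
    have := mem_range.1 (mem_filter.1 (he2 i)).1
    rw [Rw, if_pos h3]; omega
  · obtain ⟨e, he1, he2, he3⟩ := four J (range (3 * n + 1)) (by
      rw [card_range]; omega)
    refine ⟨e, he1, fun i => ?_, adE4 hA e (Or.inl h3), he3⟩
    have := mem_range.1 (he2 i)
    rw [Rw, if_neg h3]; omega

end Pool.Agent.K1H50.NP
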