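import Mathlib
import Pool.Agent.Y827.RO.NinE

/-! Exact sets of primes among linear forms along narrow progressions, further forms being blocked. -/

set_option autoImplicit false
open Filter Topology Finset

namespace Pool.Agent.K1H50.NP

open Pool.Agent.Y827.RO

/-- primitive forms with the same root are equal -/
theorem prim_eq {a b c d : ℤ} (ha : 0 < a) (hc : 0 < c) (hab : IsCoprime a b) (hcd : IsCoprime c d)
    (h : a * d = c * b) : (a, b) = (c, d) := by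
  have h1 : a ∣ c := by
    have : a ∣ c * b := ⟨d, h.symm⟩
    exact hab.dvd_of_dvd_mul_right this
  have h2 : c ∣ a := by
    have : c ∣ a * d := ⟨b, h⟩
    exact hcd.dvd_of_dvd_mul_right this
  have h3 : a = c := Int.dvd_antisymm ha.le hc.le h1 h2
  subst h3
  have h4 : d = b := mul_left_cancel₀ ha.ne' h
  rw [h4]

theorem nar_of_QE {T K : ℕ} {H : Fin T → Fin K → ℤ × ℤ} {E : Finset (Fin T × Fin K)}
    (h : ∀ l : ℕ, ∃ C : ℕ, ∃ᶠ N : ℕ in atTop, QE H E l C N) :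
    Nar (fun m => ∀ g i, ((H g i).1 * (m : ℤ) + (H g i).2).toNat.Prime ↔ (g, i) ∈ E) := by
  intro l
  obtain ⟨C, hC⟩ := h l
  refine ⟨C, hC.mono ?_⟩
  rintro N' ⟨d, h1, h2, h3⟩
  refine ⟨d, h1, h2, h3.trans (le_of_eq ?_)⟩
  unfold cntE
  congr!

open Classical in
/-- **exact sets of primes among linear forms, along narrow progressions, the forms in `B` being composite** -/
theorem blockL (T M : ℕ) (hT : 1 ≤ T) (hTM : (18 / 5 : ℝ) * M < T) : ∃ K : ℕ, 1 ≤ K ∧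
    ∀ H : Fin T → Fin K → ℤ × ℤ, Function.Injective (fun x : Fin T × Fin K => H x.1 x.2) →
    (∀ g i, 0 < (H g i).1) →
    (∀ p : ℕ, p.Prime → ∃ r : ℤ, ∀ g i, ¬ (p : ℤ) ∣ (H g i).1 * r + (H g i).2) →
    ∀ B : Finset (ℤ × ℤ), (∀ b ∈ B, 0 < b.1) → (∀ b ∈ B, ∀ g i, H g i ≠ b) →
    ∀ r₀ : ℕ, ∃ (Q r : ℕ) (E : Finset (Fin T × Fin K)), 0 < Q ∧ r₀ ≤ r ∧
      M + 1 ≤ (E.image Prod.fst).card ∧
      Nar (fun m => (∀ g i, ((H g i).1 * ((Q * m + r : ℕ) : ℤ) + (H g i).2).toNat.Prime ↔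
          (g, i) ∈ E) ∧
        ∀ b ∈ B, ¬ (b.1 * ((Q * m + r : ℕ) : ℤ) + b.2).toNat.Prime) := by
  obtain ⟨K, hK, hbig⟩ := bigE T M hT hTM
  refine ⟨K, hK, fun H hinj hpos hloc B hB hne r₀ => ?_⟩
  have hcop : ∀ g i, IsCoprime (H g i).1 (H g i).2 := fun g i => coprime_of_adm fun p hp => by
    obtain ⟨m, hm⟩ := hloc p hp
    exact ⟨m, hm g i⟩
  -- a bound
  obtain ⟨Mx, hMx⟩ : ∃ Mx : ℕ, ∀ b ∈ B, b.1.natAbs ≤ Mx ∧ b.2.natAbs ≤ Mx ∧
      ∀ g i, ((H g i).1 * b.2 - b.1 * (H g i).2).natAbs ≤ Mx := by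
    refine ⟨∑ b ∈ B, (b.1.natAbs + b.2.natAbs +
      ∑ x : Fin T × Fin K, ((H x.1 x.2).1 * b.2 - b.1 * (H x.1 x.2).2).natAbs), fun b hb => ?_⟩
    have h1 : b.1.natAbs + b.2.natAbs +
      ∑ x : Fin T × Fin K, ((H x.1 x.2).1 * b.2 - b.1 * (H x.1 x.2).2).natAbs ≤
        ∑ b ∈ B, (b.1.natAbs + b.2.natAbs +
      ∑ x : Fin T × Fin K, ((H x.1 x.2).1 * b.2 - b.1 * (H x.1 x.2).2).natAbs) :=
      single_le_sum (f := fun b : ℤ × ℤ => (b.1.natAbs + b.2.natAbs +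
      ∑ x : Fin T × Fin K, ((H x.1 x.2).1 * b.2 - b.1 * (H x.1 x.2).2).natAbs))
        (fun _ _ => Nat.zero_le _) hb
    refine ⟨by omega, by omega, fun g i => ?_⟩
    have h2 : ((H g i).1 * b.2 - b.1 * (H g i).2).natAbs ≤
        ∑ x : Fin T × Fin K, ((H x.1 x.2).1 * b.2 - b.1 * (H x.1 x.2).2).natAbs :=
      single_le_sum (f := fun x : Fin T × Fin K =>
        ((H x.1 x.2).1 * b.2 - b.1 * (H x.1 x.2).2).natAbs)
        (fun _ _ => Nat.zero_le _) (mem_univ (g, i))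
    omega
  set q : ℤ × ℤ → ℕ := fun t => Nat.nth Nat.Prime (Mx + Encodable.encode t) with hq
  have hqp : ∀ t, (q t).Prime := fun t => Nat.prime_nth_prime _
  have hqM : ∀ t, Mx < q t := fun t => by
    have := Nat.add_two_le_nth_prime (Mx + Encodable.encode t)
    simp only [hq]; omega
  have hqinj : Function.Injective q := by
    intro s t hst
    have h1 := Nat.nth_injective Nat.infinite_setOfPred_prime hst
    exact Encodable.encode_injective (by omega)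
  set B' : Finset (ℤ × ℤ) := B.filter (fun b => IsCoprime b.1 b.2) with hB'
  have hpair : Set.Pairwise (B' : Set (ℤ × ℤ)) (Function.onFun Nat.Coprime q) := by
    intro s _ t _ hst
    exact (Nat.coprime_primes (hqp s) (hqp t)).2 fun h => hst (hqinj h)
  have hc : ∀ b ∈ B', ∃ c : ℕ, (q b : ℤ) ∣ b.1 * c + b.2 := by
    intro b hb
    have hbB := (mem_filter.1 hb).1
    have h1 := hB b hbB
    have h2 := (hMx b hbB).1
    have h3 := hqM b
    have h4 : IsCoprime b.1 (q b : ℤ) := by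
      have hpp := Nat.prime_iff_prime_int.1 (hqp b)
      refine ((Irreducible.coprime_iff_not_dvd hpp.irreducible).2 fun hd => ?_).symm
      have := Int.le_of_dvd h1 hd
      omega
    obtain ⟨u, v, huv⟩ := h4
    have hq0 : (0 : ℤ) < q b := by exact_mod_cast (hqp b).pos
    refine ⟨((-u * b.2) % (q b : ℤ)).toNat, ?_⟩
    have h5 : (((((-u * b.2) % (q b : ℤ)).toNat : ℕ)) : ℤ) = (-u * b.2) % (q b : ℤ) :=
      Int.toNat_of_nonneg (Int.emod_nonneg _ hq0.ne')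
    rw [h5]
    have h6 := Int.emod_add_mul_ediv (-u * b.2) (q b : ℤ)
    refine ⟨v * b.2 - b.1 * ((-u * b.2) / (q b : ℤ)), ?_⟩
    linear_combination b.1 * h6 - b.2 * huv
  choose! c hc using hc
  obtain ⟨k, hk⟩ := Nat.chineseRemainderOfFinset c q B' (fun t _ => (hqp t).ne_zero) hpair
  set Q : ℕ := ∏ t ∈ B', q t with hQdef
  have hQ0 : 0 < Q := prod_pos fun t _ => (hqp t).pos
  obtain ⟨r, hr⟩ : ∃ r : ℕ, r = k + Q * (r₀ + Mx) := ⟨_, rfl⟩
  have hr0 : r₀ + Mx ≤ r := by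
    have : 1 * (r₀ + Mx) ≤ Q * (r₀ + Mx) := Nat.mul_le_mul_right _ hQ0
    omega
  have hr' : ∀ b ∈ B', (q b : ℤ) ∣ b.1 * r + b.2 := by
    intro b hb
    have h1 := (Nat.modEq_iff_dvd.1 (hk b hb))
    have h2 : (q b : ℤ) ∣ (Q : ℤ) := by exact_mod_cast dvd_prod_of_mem q hb
    have h3 : b.1 * (r : ℤ) + b.2 = (b.1 * c b + b.2) - b.1 * ((c b : ℤ) - k) +
        Q * (b.1 * (r₀ + Mx)) := by rw [hr]; push_cast; ring
    rw [h3]
    exact dvd_add (dvd_sub (hc b hb) (Dvd.dvd.mul_left h1 _)) (Dvd.dvd.mul_right h2 _)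
  have hadm : ∀ p : ℕ, p.Prime → ∃ n : ℤ, ∀ g i,
      ¬ ((p : ℤ) ∣ ((H g i).1 * Q) * n + ((H g i).1 * r + (H g i).2)) := by
    intro p hp
    have hpp := Nat.prime_iff_prime_int.1 hp
    by_cases hpQ : p ∣ Q
    · refine ⟨0, fun g i hd => ?_⟩
      obtain ⟨b, hbB', hpt⟩ := (hp.prime.dvd_finsetProd_iff _).1 hpQ
      have hpq : p = q b := (Nat.prime_dvd_prime_iff_eq hp (hqp b)).1 hpt
      have hbB := (mem_filter.1 hbB').1
      rw [mul_zero, zero_add, hpq] at hd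
      have h1 := hr' b hbB'
      have h2 : (q b : ℤ) ∣ (H g i).1 * b.2 - b.1 * (H g i).2 := by
        have h3 := dvd_sub (Dvd.dvd.mul_left h1 (H g i).1) (Dvd.dvd.mul_left hd b.1)
        have e : (H g i).1 * (b.1 * r + b.2) - b.1 * ((H g i).1 * r + (H g i).2) =
          (H g i).1 * b.2 - b.1 * (H g i).2 := by ring
        rwa [e] at h3
      have h3 := (hMx b hbB).2.2 g i
      have h4 := hqM b
      have h5 : (H g i).1 * b.2 - b.1 * (H g i).2 = 0 := by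
        apply Int.eq_zero_of_abs_lt_dvd h2
        rw [Int.abs_eq_natAbs]
        exact_mod_cast lt_of_le_of_lt h3 h4
      apply hne b hbB g i
      have h6 := prim_eq (hpos g i) (hB b hbB) (hcop g i) (mem_filter.1 hbB').2 (by linarith)
      exact h6
    · obtain ⟨n₀, hn₀⟩ := hloc p hp
      have hcopQ : IsCoprime (Q : ℤ) (p : ℤ) := by
        rw [Nat.isCoprime_iff_coprime]
        exact ((Nat.Prime.coprime_iff_not_dvd hp).2 hpQ).symm
      obtain ⟨u, v, huv⟩ := hcopQ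
      refine ⟨u * (n₀ - r), fun g i hd => hn₀ g i ?_⟩
      have e : (H g i).1 * n₀ + (H g i).2 = (((H g i).1 * Q) * (u * (n₀ - r)) +
          ((H g i).1 * r + (H g i).2)) + p * ((H g i).1 * v * (n₀ - r)) := by
        linear_combination (-((H g i).1 * (n₀ - (r : ℤ)))) * huv
      rw [e]
      exact dvd_add hd (dvd_mul_right _ _)
  obtain ⟨E, hE, hnar⟩ := hbig (fun g i => ((H g i).1 * Q, (H g i).1 * r + (H g i).2))
    (by
      intro x y hxy
      apply hinj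
      simp only [Prod.mk.injEq] at hxy
      have hQ0' : (Q : ℤ) ≠ 0 := by exact_mod_cast hQ0.ne'
      have h1 : (H x.1 x.2).1 = (H y.1 y.2).1 := mul_right_cancel₀ hQ0' hxy.1
      have h2 : (H x.1 x.2).2 = (H y.1 y.2).2 := by
        have := hxy.2
        rw [h1] at this
        linarith
      exact Prod.ext h1 h2)
    (fun g i => ⟨by
      show (0 : ℤ) < (H g i).1 * Q
      have := hpos g i
      have hQ0' : (0 : ℤ) < Q := by exact_mod_cast hQ0
      positivity, coprime_of_adm fun p hp => by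
        obtain ⟨m, hm⟩ := hadm p hp
        exact ⟨m, hm g i⟩⟩)
    (fun p hp _ => hadm p hp)
  refine ⟨Q, r, E, hQ0, by omega, hE, ?_⟩
  have hnar' : Nar (fun m => ∀ g i, ((H g i).1 * ((Q * m + r : ℕ) : ℤ) + (H g i).2).toNat.Prime ↔
      (g, i) ∈ E) := by
    refine (nar_of_QE hnar).mono fun m hm g i => ?_
    rw [← hm g i]
    have e1 : (H g i).1 * ((Q * m + r : ℕ) : ℤ) + (H g i).2 =
        (H g i).1 * (Q : ℤ) * (m : ℤ) + ((H g i).1 * (r : ℤ) + (H g i).2) := by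
      push_cast; ring
    rw [e1]
  refine hnar'.ge_two.mono ?_
  rintro m ⟨hm, hm2⟩
  refine ⟨hm, fun b hb hpr => ?_⟩
  have hb1 := hB b hb
  obtain ⟨hM1, hM2, -⟩ := hMx b hb
  have hval0 : 0 < b.1 * ((Q * m + r : ℕ) : ℤ) + b.2 := by
    by_contra hneg
    rw [Int.toNat_of_nonpos (not_lt.1 hneg)] at hpr
    exact Nat.not_prime_zero hpr
  have hcast : (((b.1 * ((Q * m + r : ℕ) : ℤ) + b.2).toNat : ℕ) : ℤ) =
      b.1 * ((Q * m + r : ℕ) : ℤ) + b.2 := Int.toNat_of_nonneg hval0.le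
  have hge : b.1 * (Q : ℤ) * 2 + b.1 * (r : ℤ) + b.2 ≤ b.1 * ((Q * m + r : ℕ) : ℤ) + b.2 := by
    have h1 : b.1 * (Q : ℤ) * 2 ≤ b.1 * (Q : ℤ) * m := by
      have : (2 : ℤ) ≤ m := by exact_mod_cast hm2
      exact mul_le_mul_of_nonneg_left this (by positivity)
    push_cast
    nlinarith
  have hrb : 0 ≤ b.1 * (r : ℤ) + b.2 := by
    have h1 : (r : ℤ) ≤ b.1 * (r : ℤ) := le_mul_of_one_le_left (Nat.cast_nonneg _) (by omega)
    have h2 : (b.2.natAbs : ℤ) ≤ r := by exact_mod_cast (by omega : b.2.natAbs ≤ r)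
    omega
  by_cases hprim : IsCoprime b.1 b.2
  · have hbB' : b ∈ B' := mem_filter.2 ⟨hb, hprim⟩
    have h1 : (q b : ℤ) ∣ b.1 * ((Q * m + r : ℕ) : ℤ) + b.2 := by
      have h2 : (q b : ℤ) ∣ (Q : ℤ) := by exact_mod_cast dvd_prod_of_mem q hbB'
      have h3 : b.1 * ((Q * m + r : ℕ) : ℤ) + b.2 = Q * (b.1 * m) + (b.1 * r + b.2) := by
        push_cast; ring
      rw [h3]
      exact dvd_add (Dvd.dvd.mul_right h2 _) (hr' b hbB')
    rw [← hcast] at h1
    have h2 := (Nat.prime_dvd_prime_iff_eq (hqp b) hpr).1 (by exact_mod_cast h1)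
    have h3 : (q b : ℤ) = b.1 * ((Q * m + r : ℕ) : ℤ) + b.2 := by rw [← hcast, ← h2]
    have h4 : (q b : ℤ) ≤ Q := by
      exact_mod_cast Nat.le_of_dvd hQ0 (dvd_prod_of_mem q hbB')
    have h5 : (Q : ℤ) ≤ b.1 * Q := le_mul_of_one_le_left (Nat.cast_nonneg _) (by omega)
    have h6 : (0 : ℤ) < Q := by exact_mod_cast hQ0
    linarith
  · obtain ⟨p, hp, hd⟩ := Nat.exists_prime_and_dvd (fun h => hprim (Int.isCoprime_iff_gcd_eq_one.2 h))
    have h1 : (p : ℤ) ∣ b.1 := (Int.natCast_dvd_natCast.2 hd).trans (Int.gcd_dvd_left _ _)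
    have h2 : (p : ℤ) ∣ b.2 := (Int.natCast_dvd_natCast.2 hd).trans (Int.gcd_dvd_right _ _)
    have h3 : (p : ℤ) ∣ b.1 * ((Q * m + r : ℕ) : ℤ) + b.2 := dvd_add (Dvd.dvd.mul_right h1 _) h2
    rw [← hcast] at h3
    have h4 := (Nat.prime_dvd_prime_iff_eq hp hpr).1 (by exact_mod_cast h3)
    have h5 : (p : ℤ) = b.1 * ((Q * m + r : ℕ) : ℤ) + b.2 := by rw [← hcast, ← h4]
    have h6 := Int.le_of_dvd hb1 h1
    have h7 : (1 : ℤ) ≤ Q := by exact_mod_cast hQ0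
    have h8 : b.1 ≤ b.1 * Q := le_mul_of_one_le_right hb1.le h7
    linarith

end Pool.Agent.K1H50.NP
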