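import Mathlib
import Pool.Agent.K1H50.NP.Blk
import Pool.Agent.Y863.AU.Arr

/-! Exact patterns of the prime values of the iterates of a map, along narrow progressions of primes. -/

set_option autoImplicit false
open Filter Topology Finset

namespace Pool.Agent.K1H50.NP

open Pool.Agent.Y827.RO Pool.Agent.Y863.AU Pool.Agent.Y863.AA Pool.Agent.W25.IT

/-- `q` is a prime and among the first `R` iterates of `h` exactly those with the exponents in `S` map it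
to a prime -/
def Pt (h : Af) (S : Finset ℕ) (R q : ℕ) : Prop :=
  q.Prime ∧ ∀ s ∈ Icc 1 R, (((h ^ s).ev q).toNat.Prime ↔ s ∈ S)

/-- the exponent `j` is good, first `R` iterates -/
def GdR (B R : ℕ) (h : Af) (j : ℕ) : Prop :=
  ∃ S : Finset ℕ, S ⊆ Icc 1 R ∧ S.card ≤ B ∧ j ∈ S ∧ Nar (Pt h S R)

/-- the exponent `j` is good -/
def GdI (B : ℕ) (h : Af) (j : ℕ) : Prop :=
  ∃ S : Finset ℕ, 0 ∉ S ∧ S.card ≤ B ∧ j ∈ S ∧ ∀ R, Nar (Pt h S R)

theorem Pt.restrict {h : Af} {S S' : Finset ℕ} {R R' q : ℕ} (hR : R ≤ R')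
    (hS : ∀ s ∈ Icc 1 R, s ∈ S' ↔ s ∈ S) (hp : Pt h S' R' q) : Pt h S R q := by
  refine ⟨hp.1, fun s hs => ?_⟩
  rw [hp.2 s (by rw [mem_Icc] at hs ⊢; omega)]
  exact hS s hs

theorem GdR.mono {B R R' : ℕ} {h : Af} {j : ℕ} (hjR : j ≤ R) (hR : R ≤ R') (hg : GdR B R' h j) :
    GdR B R h j := by
  obtain ⟨S, hS, hc, hj, hn⟩ := hg
  have hj1 := mem_Icc.1 (hS hj)
  refine ⟨S ∩ Icc 1 R, inter_subset_right, (card_le_card inter_subset_left).trans hc,
    mem_inter.2 ⟨hj, mem_Icc.2 ⟨hj1.1, hjR⟩⟩, hn.mono fun q hq => hq.restrict hR fun s hs => ?_⟩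
  rw [mem_inter]
  exact ⟨fun h => ⟨h, hs⟩, fun h => h.1⟩

open Classical in
/-- compactness -/
theorem gdI_of {B : ℕ} {h : Af} {j : ℕ} (H : ∀ R, j ≤ R → GdR B R h j) : GdI B h j := by
  have H' : ∀ R, ∃ S : Finset ℕ, j ≤ R → S ⊆ Icc 1 R ∧ S.card ≤ B ∧ j ∈ S ∧ Nar (Pt h S R) := by
    intro R
    by_cases hR : j ≤ R
    · obtain ⟨S, hS⟩ := H R hR
      exact ⟨S, fun _ => hS⟩
    · exact ⟨∅, fun h => absurd h hR⟩
  choose Sf hSf using H'
  obtain ⟨U, hU⟩ : ∃ U : Ultrafilter ℕ, U = hyperfilter ℕ := ⟨_, rfl⟩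
  have hUat : ∀ b : ℕ, ∀ᶠ R in (U : Filter ℕ), b ≤ R := by
    intro b
    rw [hU]
    exact Nat.hyperfilter_le_atTop (eventually_ge_atTop b)
  obtain ⟨T, hT⟩ : ∃ T : Set ℕ, T = {s | ∀ᶠ R in (U : Filter ℕ), s ∈ Sf R} := ⟨_, rfl⟩
  have hTm : ∀ s, s ∈ T ↔ ∀ᶠ R in (U : Filter ℕ), s ∈ Sf R := by
    intro s; rw [hT]; rfl
  have hTn : ∀ s, s ∉ T → ∀ᶠ R in (U : Filter ℕ), s ∉ Sf R := by
    intro s hs
    rw [hTm] at hs
    exact (Ultrafilter.eventually_not).2 hs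
  have hsub : ∀ A : Finset ℕ, (A : Set ℕ) ⊆ T → A.card ≤ B := by
    intro A hA
    have h1 : ∀ᶠ R in (U : Filter ℕ), ∀ s ∈ A, s ∈ Sf R := by
      rw [Filter.eventually_all_finset]
      intro s hs
      exact (hTm s).1 (hA (mem_coe.2 hs))
    obtain ⟨R, hR1, hR2⟩ := (h1.and (hUat j)).exists
    exact (card_le_card (fun s hs => hR1 s hs)).trans (hSf R hR2).2.1
  have hTfin : T.Finite := by
    by_contra hinf
    obtain ⟨A, hA, hAc⟩ := Set.Infinite.exists_subset_card_eq hinf (B + 1)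
    have := hsub A hA
    omega
  refine ⟨hTfin.toFinset, ?_, hsub _ (by simp), ?_, fun R => ?_⟩
  · rw [Set.Finite.mem_toFinset, hTm]
    intro h0
    obtain ⟨R, hR1, hR2⟩ := (h0.and (hUat j)).exists
    have := mem_Icc.1 ((hSf R hR2).1 hR1)
    omega
  · rw [Set.Finite.mem_toFinset, hTm]
    filter_upwards [hUat j] with R hR
    exact (hSf R hR).2.2.1
  · have h1 : ∀ᶠ R' in (U : Filter ℕ), ∀ s ∈ Icc 1 R, s ∈ Sf R' ↔ s ∈ hTfin.toFinset := by
      rw [Filter.eventually_all_finset]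
      intro s hs
      by_cases hsT : s ∈ T
      · filter_upwards [(hTm s).1 hsT] with R' hR'
        rw [Set.Finite.mem_toFinset]
        exact ⟨fun _ => hsT, fun _ => hR'⟩
      · filter_upwards [hTn s hsT] with R' hR'
        rw [Set.Finite.mem_toFinset]
        exact ⟨fun h => absurd h hR', fun h => absurd h hsT⟩
    obtain ⟨R', hR1, hR2, hR3⟩ := (h1.and ((hUat j).and (hUat R))).exists
    exact (hSf R' hR2).2.2.2.mono fun q hq => hq.restrict hR3 hR1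

theorem pow_inj {h : Af} (hd : 1 ≤ h.d) (ha : h.a ≠ 0) {F : Af} (hF : 1 ≤ F.d) {s s' : ℕ}
    (he : h ^ s * F = h ^ s' * F) : s = s' := by
  have hD := congrArg Af.d he
  have hAa := congrArg Af.a he
  rw [Af.mul_d, Af.mul_d] at hD
  have h2 : (h ^ s).d = (h ^ s').d := mul_right_cancel₀ (by omega) hD
  rw [Af.mul_a, Af.mul_a, h2] at hAa
  have h3 : (h ^ s).a = (h ^ s').a := by linarith
  rw [Af.pow_d, Af.pow_d] at h2
  rw [Af.pow_a, Af.pow_a] at h3
  exact itc_inj hd ha h2 h3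

open Classical in
/-- **cliques** -/
theorem clq (T M : ℕ) (hT : 1 ≤ T) (hTM : (18 / 5 : ℝ) * M < T) : ∃ K : ℕ, 1 ≤ K ∧
    ∀ (R : ℕ) (F : Fin T → Fin K → Af), (∀ γ i, 1 ≤ (F γ i).d) →
    Function.Injective (fun z : Fin T × Fin K => F z.1 z.2) →
    (∀ p : ℕ, p.Prime → ∃ y : ℤ, ∀ γ i, ¬ (p : ℤ) ∣ (F γ i).d * y + (F γ i).a) →
    ∀ HH : Finset Af, (∀ h ∈ HH, 1 ≤ h.d ∧ h.a ≠ 0) →
    ∃ (S : Finset (Fin T)) (σ : Fin T → Fin K), M + 1 ≤ S.card ∧
      ∀ γ ∈ S, ∀ δ ∈ S, ∀ h ∈ HH, ∀ j : ℕ, 1 ≤ j → j ≤ R →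
        h ^ j * F γ (σ γ) = F δ (σ δ) → GdR (T * K) R h j := by
  obtain ⟨K, hK, hbl⟩ := blockL T M hT hTM
  refine ⟨K, hK, fun R F hFd hinj hloc HH hHH => ?_⟩
  have : Nonempty (Fin K) := ⟨⟨0, hK⟩⟩
  obtain ⟨Bf, hBf⟩ : ∃ Bf : Finset (ℤ × ℤ), Bf = ((HH ×ˢ (Icc 1 R ×ˢ
      (univ : Finset (Fin T × Fin K)))).image (fun z => ((z.1 ^ z.2.1 * F z.2.2.1 z.2.2.2).d,
        (z.1 ^ z.2.1 * F z.2.2.1 z.2.2.2).a))).filter (fun b => ∀ γ i, ((F γ i).d, (F γ i).a) ≠ b) :=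
    ⟨_, rfl⟩
  have hpd : ∀ h ∈ HH, ∀ (s : ℕ) (γ : Fin T) (i : Fin K), 1 ≤ (h ^ s * F γ i).d := by
    intro h hh s γ i
    rw [Af.mul_d, Af.pow_d]
    have h1 : 0 < h.d := by have := (hHH h hh).1; omega
    have h2 : 0 < (F γ i).d := by have := hFd γ i; omega
    have : 0 < h.d ^ s * (F γ i).d := by positivity
    omega
  obtain ⟨Q, r, E, hQ, hr, hE, hnar⟩ := hbl (fun γ i => ((F γ i).d, (F γ i).a))
    (by
      intro x y hxy
      apply hinj
      simp only [Prod.mk.injEq] at hxy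
      exact Af.ext hxy.2 hxy.1)
    (fun γ i => by have := hFd γ i; show 0 < (F γ i).d; omega) hloc Bf
    (by
      intro b hb
      rw [hBf, mem_filter, mem_image] at hb
      obtain ⟨⟨z, hz, rfl⟩, -⟩ := hb
      rw [mem_product] at hz
      have := hpd z.1 hz.1 z.2.1 z.2.2.1 z.2.2.2
      show 0 < (z.1 ^ z.2.1 * F z.2.2.1 z.2.2.2).d
      omega)
    (by
      intro b hb γ i
      rw [hBf, mem_filter] at hb
      exact hb.2 γ i)
    (∑ z : Fin T × Fin K, (F z.1 z.2).a.natAbs)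
  refine ⟨E.image Prod.fst, fun γ => if hγ : ∃ i, (γ, i) ∈ E then hγ.choose else Classical.arbitrary _,
    hE, ?_⟩
  intro γ hγ δ hδ h hh j hj1 hjR heq
  beta_reduce at heq
  have : Nonempty (Fin T × Fin K) := ⟨(⟨0, hT⟩, ⟨0, hK⟩)⟩
  have hmemE : ∀ γ ∈ E.image Prod.fst,
      (γ, (if hγ : ∃ i, (γ, i) ∈ E then hγ.choose else Classical.arbitrary (Fin K))) ∈ E := by
    intro γ hγ
    obtain ⟨z, hz, rfl⟩ := mem_image.1 hγ
    have hex : ∃ i, (z.1, i) ∈ E := ⟨z.2, hz⟩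
    rw [dif_pos hex]
    exact hex.choose_spec
  have hγE := hmemE γ hγ
  have hδE := hmemE δ hδ
  generalize (if hγ : ∃ i, (γ, i) ∈ E then hγ.choose else Classical.arbitrary (Fin K)) = i at heq hγE
  generalize (if hγ : ∃ i, (δ, i) ∈ E then hγ.choose else Classical.arbitrary (Fin K)) = i' at heq hδE
  obtain ⟨hhd, hha⟩ := hHH h hh
  refine ⟨(Icc 1 R).filter (fun s => ∃ z ∈ E, h ^ s * F γ i = F z.1 z.2), filter_subset _ _, ?_, ?_, ?_⟩
  · -- the number of the exponents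
    have h1 : ∀ s ∈ (Icc 1 R).filter (fun s => ∃ z ∈ E, h ^ s * F γ i = F z.1 z.2),
        ∃ z ∈ E, h ^ s * F γ i = F z.1 z.2 := fun s hs => (mem_filter.1 hs).2
    choose! zf hzf using h1
    refine (card_le_card_of_injOn zf (t := (univ : Finset (Fin T × Fin K)))
      (fun s _ => mem_coe.2 (mem_univ _)) ?_).trans (le_of_eq ?_)
    · intro s hs s' hs' hss
      have h2 := (hzf s (mem_coe.1 hs)).2
      have h3 := (hzf s' (mem_coe.1 hs')).2
      rw [hss, ← h3] at h2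
      exact pow_inj hhd hha (hFd γ i) h2
    · rw [card_univ, Fintype.card_prod, Fintype.card_fin, Fintype.card_fin]
  · exact mem_filter.2 ⟨mem_Icc.2 ⟨hj1, hjR⟩, (δ, i'), hδE, heq⟩
  · have hFi := hFd γ i
    have ha0 : (0 : ℤ) < (F γ i).d * Q := by
      have : (0 : ℤ) < Q := by exact_mod_cast hQ
      have : (0 : ℤ) < (F γ i).d := by omega
      positivity
    have hb0 : (0 : ℤ) ≤ (F γ i).d * r + (F γ i).a := by
      have h1 : (r : ℤ) ≤ (F γ i).d * (r : ℤ) := le_mul_of_one_le_left (Nat.cast_nonneg _) hFi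
      have h2 : (F γ i).a.natAbs ≤ ∑ z : Fin T × Fin K, (F z.1 z.2).a.natAbs :=
        single_le_sum (f := fun z : Fin T × Fin K => (F z.1 z.2).a.natAbs)
          (fun _ _ => Nat.zero_le _) (mem_univ (γ, i))
      have h3 : ((F γ i).a.natAbs : ℤ) ≤ r := by exact_mod_cast h2.trans hr
      omega
    obtain ⟨A, hA⟩ := Int.eq_ofNat_of_zero_le ha0.le
    obtain ⟨b, hb⟩ := Int.eq_ofNat_of_zero_le hb0
    have hA0 : 0 < A := by
      rw [hA] at ha0; exact_mod_cast ha0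
    apply Nar.affine (q := A) (b := b) hA0
    refine hnar.mono ?_
    rintro m ⟨hm1, hm2⟩
    have hval : ((A * m + b : ℕ) : ℤ) = (F γ i).ev ((Q * m + r : ℕ) : ℤ) := by
      unfold Af.ev
      push_cast
      rw [← hA, ← hb]
      ring
    have hev : ∀ g : Af, g.ev ((Q * m + r : ℕ) : ℤ) = g.d * ((Q * m + r : ℕ) : ℤ) + g.a := by
      intro g; unfold Af.ev; ring
    refine ⟨?_, fun s hs => ?_⟩
    · have h1 := (hm1 γ i).2 hγE
      have h2 : (((A * m + b : ℕ) : ℤ)).toNat = A * m + b := Int.toNat_natCast _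
      rw [← h2, hval, hev]
      exact h1
    · rw [hval, ← Af.ev_mul, hev, mem_filter]
      by_cases hz : ∃ z : Fin T × Fin K, h ^ s * F γ i = F z.1 z.2
      · obtain ⟨z, hz⟩ := hz
        rw [hz]
        have h1 := hm1 z.1 z.2
        rw [h1]
        constructor
        · intro h2
          exact ⟨hs, z, h2, rfl⟩
        · rintro ⟨-, z', hz', hzz⟩
          have : z = z' := hinj hzz
          rw [this]
          exact hz'
      · constructor
        · intro h1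
          exfalso
          refine hm2 ((h ^ s * F γ i).d, (h ^ s * F γ i).a) ?_ h1
          rw [hBf, mem_filter, mem_image]
          refine ⟨⟨(h, s, γ, i), mem_product.2 ⟨hh, mem_product.2 ⟨hs, mem_univ _⟩⟩, rfl⟩, ?_⟩
          intro γ' i' heq'
          simp only [Prod.mk.injEq] at heq'
          exact hz ⟨(γ', i'), Af.ext heq'.2.symm heq'.1.symm⟩
        · rintro ⟨-, z, -, h2⟩
          exact absurd ⟨z, h2⟩ hz

end Pool.Agent.K1H50.NP
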