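import Mathlib
import Pool.Agent.K1H50.NP.Pat
import Pool.Agent.K1H50.NP.CoreA
import Pool.Agent.K1H50.NP.Comb4

/-! At least `n` of the first `3 n` iterates of almost all maps of the sequence `g ^ k * f`. -/

set_option autoImplicit false
open Filter Topology Finset

namespace Pool.Agent.K1H50.NP

open Pool.Agent.Y827.RO Pool.Agent.Y863.AU Pool.Agent.Y863.AA Pool.Agent.W25.IT

theorem card_nat_le' (u H : ℕ) (P : ℕ → Prop) (Q : ℤ → Prop) (i1 : DecidablePred P)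
    (i2 : DecidablePred Q) (h : ∀ k : ℕ, P k → Q k) :
    (@Finset.filter ℕ P i1 (Ioc u (u + H))).card ≤
      (@Finset.filter ℤ Q i2 (Ioc (u : ℤ) (u + H))).card := by
  refine card_le_card_of_injOn (fun k : ℕ => (k : ℤ)) ?_ Nat.cast_injective.injOn
  intro k hk
  obtain ⟨h1, h2⟩ := mem_filter.1 (mem_coe.1 hk)
  rw [mem_Ioc] at h1
  refine mem_coe.2 (mem_filter.2 ⟨?_, h k h2⟩)
  rw [mem_Ioc]
  constructor <;> push_cast <;> omega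

theorem card_int_le' (u H : ℕ) (P : ℕ → Prop) (Q : ℤ → Prop) (i1 : DecidablePred P)
    (i2 : DecidablePred Q) (h : ∀ k : ℤ, Q k → P k.toNat) :
    (@Finset.filter ℤ Q i2 (Ioc (u : ℤ) (u + H))).card ≤
      (@Finset.filter ℕ P i1 (Ioc u (u + H))).card := by
  refine card_le_card_of_injOn Int.toNat ?_ ?_
  · intro k hk
    obtain ⟨h1, h2⟩ := mem_filter.1 (mem_coe.1 hk)
    rw [mem_Ioc] at h1
    refine mem_coe.2 (mem_filter.2 ⟨?_, h k h2⟩)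
    rw [mem_Ioc]
    constructor <;> omega
  · intro k hk l hl hkl
    have h1 := (mem_filter.1 (mem_coe.1 hk)).1
    have h2 := (mem_filter.1 (mem_coe.1 hl)).1
    rw [mem_Ioc] at h1 h2
    omega

open Classical in
/-- **At least `n` of the first `3 n` iterates.** -/
theorem mainN : ∃ B : ℕ, ∀ (n : ℕ) (ε : ℝ), 0 < ε → ∃ L : ℕ, ∀ m d d' : ℕ, 1 ≤ m → 1 ≤ d →
    1 ≤ d' → ∀ u H : ℕ, L * m ^ ((9 * n / 2 + 1) ^ 2) ≤ H →
    ∀ f g : Af, f.d = d → g.d = d' → f.Adm → g.Adm → g ≠ 1 → f * g = g ^ m * f →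
      (((Ioc u (u + H)).filter (fun k : ℕ => (g ^ k * f).Adm ∧ g ^ k * f ≠ 1 ∧
        ((Icc 1 (Rw n (g ^ k * f))).filter (fun j => GdI B (g ^ k * f) j)).card < n)).card : ℝ) ≤
      ε * (((Ioc u (u + H)).filter (fun k : ℕ => (g ^ k * f).Adm)).card : ℝ) := by
  obtain ⟨K, hK, hclq⟩ := clq 4 1 (by norm_num) (by norm_num)
  refine ⟨4 * K, fun n ε hε => ?_⟩
  set w : ℕ := 9 * n / 2 with hw
  set EE : Finset (Fin 4 → ℕ) := (Fintype.piFinset (fun _ : Fin 4 => range (w + 1))).filter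
    (fun e => StrictMono e) with hEE
  have hEEm : ∀ e ∈ EE, StrictMono e ∧ ∀ γ, e γ ≤ w := by
    intro e he
    rw [hEE, mem_filter, Fintype.mem_piFinset] at he
    exact ⟨he.2, fun γ => by have := mem_range.1 (he.1 γ); omega⟩
  have hcore : ∀ e : Fin 4 → ℕ, ∃ L : ℕ, e ∈ EE → ∀ Gd : Af → ℕ → Prop,
      (∀ F : Fin 4 → Fin K → Af, (∀ γ i, 1 ≤ (F γ i).d) →
      Function.Injective (fun z : Fin 4 × Fin K => F z.1 z.2) →
      (∀ p : ℕ, p.Prime → ∃ y : ℤ, ∀ γ i, ¬ (p : ℤ) ∣ (F γ i).d * y + (F γ i).a) →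
      ∀ HH : Finset Af, (∀ h ∈ HH, 1 ≤ h.d ∧ h.a ≠ 0) →
      ∃ (S : Finset (Fin 4)) (σ : Fin 4 → Fin K), 1 + 1 ≤ S.card ∧
        ∀ γ ∈ S, ∀ δ ∈ S, ∀ h ∈ HH, ∀ j : ℕ, 1 ≤ j → j ≤ w →
          h ^ j * F γ (σ γ) = F δ (σ δ) → Gd h j) →
      ∀ m d d' : ℕ, 1 ≤ m → 1 ≤ d → 1 ≤ d' → ∀ u H : ℕ, L * m ^ ((w + 1) ^ 2) ≤ H →
      ∀ f g : Af, f.d = d → g.d = d' → f.Adm → g.Adm → g ≠ 1 → f * g = g ^ m * f →
      (((Ioc (u : ℤ) (u + H)).filter (fun k : ℤ => (g ^ k.toNat * f).Adm ∧ g ^ k.toNat * f ≠ 1 ∧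
        AdE e (g ^ k.toNat * f).a (g ^ k.toNat * f).d ∧
        ¬ ∃ S : Finset (Fin 4), 1 + 1 ≤ S.card ∧ ∀ γ ∈ S, ∀ δ ∈ S, γ < δ →
          Gd (g ^ k.toNat * f) (e δ - e γ))).card : ℝ) ≤
      ε / (EE.card + 1) *
        (((Ioc (u : ℤ) (u + H)).filter (fun k : ℤ => (g ^ k.toNat * f).Adm)).card : ℝ) := by
    intro e
    by_cases he : e ∈ EE
    · obtain ⟨L, hL⟩ := coreA 4 K 1 (by norm_num) hK w e (hEEm e he).1 (hEEm e he).2
        (ε / (EE.card + 1)) (by positivity)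
      exact ⟨L, fun _ => hL⟩
    · exact ⟨0, fun h => absurd h he⟩
  choose Lf hLf using hcore
  refine ⟨∑ e ∈ EE, Lf e, fun m d d' hm hd hd' u H hH f g hfd hgd hfA hgA hg1 hfg => ?_⟩
  have hyd : ∀ k : ℕ, 1 ≤ (g ^ k * f).d := by
    intro k
    rw [Af.mul_d, Af.pow_d, hgd, hfd]
    exact_mod_cast Nat.mul_pos (Nat.one_le_pow _ _ hd') hd
  -- a common number of iterates
  have hR : ∀ z : ℕ × ℕ, ∃ R : ℕ, ¬ GdI (4 * K) (g ^ z.1 * f) z.2 → z.2 ≤ R ∧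
      ¬ GdR (4 * K) R (g ^ z.1 * f) z.2 := by
    intro z
    by_cases hz : GdI (4 * K) (g ^ z.1 * f) z.2
    · exact ⟨0, fun h => absurd hz h⟩
    · have h1 : ¬ ∀ R, z.2 ≤ R → GdR (4 * K) R (g ^ z.1 * f) z.2 := fun h => hz (gdI_of h)
      push Not at h1
      obtain ⟨R, hR1, hR2⟩ := h1
      exact ⟨R, fun _ => ⟨hR1, hR2⟩⟩
  choose Rf hRf using hR
  obtain ⟨R, hRdef⟩ : ∃ R : ℕ, R = w + ∑ z ∈ (Ioc u (u + H)) ×ˢ (Icc 1 w), Rf z := ⟨_, rfl⟩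
  have hRle : ∀ k ∈ Ioc u (u + H), ∀ j ∈ Icc 1 w, ¬ GdI (4 * K) (g ^ k * f) j →
      ¬ GdR (4 * K) R (g ^ k * f) j := by
    intro k hk j hj hn hg'
    obtain ⟨h1, h2⟩ := hRf (k, j) hn
    have h3 : Rf (k, j) ≤ ∑ z ∈ (Ioc u (u + H)) ×ˢ (Icc 1 w), Rf z :=
      single_le_sum (f := Rf) (fun _ _ => Nat.zero_le _) (mem_product.2 ⟨hk, hj⟩)
    exact h2 (hg'.mono h1 (by omega))
  have hGd : ∀ F : Fin 4 → Fin K → Af, (∀ γ i, 1 ≤ (F γ i).d) →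
      Function.Injective (fun z : Fin 4 × Fin K => F z.1 z.2) →
      (∀ p : ℕ, p.Prime → ∃ y : ℤ, ∀ γ i, ¬ (p : ℤ) ∣ (F γ i).d * y + (F γ i).a) →
      ∀ HH : Finset Af, (∀ h ∈ HH, 1 ≤ h.d ∧ h.a ≠ 0) →
      ∃ (S : Finset (Fin 4)) (σ : Fin 4 → Fin K), 1 + 1 ≤ S.card ∧
        ∀ γ ∈ S, ∀ δ ∈ S, ∀ h ∈ HH, ∀ j : ℕ, 1 ≤ j → j ≤ w →
          h ^ j * F γ (σ γ) = F δ (σ δ) → GdR (4 * K) R h j := by
    intro F hF1 hF2 hF3 HH hHH
    obtain ⟨S, σ, hS, h⟩ := hclq R F hF1 hF2 hF3 HH hHH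
    exact ⟨S, σ, hS, fun γ hγ δ hδ h' hh' j hj1 hjw => h γ hγ δ hδ h' hh' j hj1 (by omega)⟩
  -- the exceptional set
  obtain ⟨N0, hN0⟩ : ∃ N0 : ℕ, N0 = ((Ioc u (u + H)).filter (fun k : ℕ => (g ^ k * f).Adm)).card :=
    ⟨_, rfl⟩
  have hbd : ∀ e ∈ EE, (((Ioc u (u + H)).filter (fun k : ℕ => (g ^ k * f).Adm ∧ g ^ k * f ≠ 1 ∧
        AdE e (g ^ k * f).a (g ^ k * f).d ∧
        ¬ ∃ S : Finset (Fin 4), 1 + 1 ≤ S.card ∧ ∀ γ ∈ S, ∀ δ ∈ S, γ < δ →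
          GdR (4 * K) R (g ^ k * f) (e δ - e γ))).card : ℝ) ≤ ε / (EE.card + 1) * N0 := by
    intro e he
    have h1 := hLf e he (GdR (4 * K) R) hGd m d d' hm hd hd' u H (by
      refine le_trans (Nat.mul_le_mul_right _ ?_) hH
      exact single_le_sum (f := Lf) (fun _ _ => Nat.zero_le _) he) f g hfd hgd hfA hgA hg1 hfg
    have h2 : (((Ioc (u : ℤ) (u + H)).filter (fun k : ℤ => (g ^ k.toNat * f).Adm)).card : ℝ) ≤
        N0 := by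
      rw [hN0, Nat.cast_le]
      exact card_int_le' u H _ _ _ _ (fun k hk => hk)
    refine le_trans ?_ (h1.trans (mul_le_mul_of_nonneg_left h2 (by positivity)))
    rw [Nat.cast_le]
    refine card_nat_le' u H _ _ _ _ (fun k hk => ?_)
    rw [Int.toNat_natCast]
    exact hk
  have hcov : (Ioc u (u + H)).filter (fun k : ℕ => (g ^ k * f).Adm ∧ g ^ k * f ≠ 1 ∧
        ((Icc 1 (Rw n (g ^ k * f))).filter (fun j => GdI (4 * K) (g ^ k * f) j)).card < n) ⊆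
      EE.biUnion (fun e => (Ioc u (u + H)).filter (fun k : ℕ => (g ^ k * f).Adm ∧ g ^ k * f ≠ 1 ∧
        AdE e (g ^ k * f).a (g ^ k * f).d ∧
        ¬ ∃ S : Finset (Fin 4), 1 + 1 ≤ S.card ∧ ∀ γ ∈ S, ∀ δ ∈ S, γ < δ →
          GdR (4 * K) R (g ^ k * f) (e δ - e γ))) := by
    intro k hk
    obtain ⟨hkI, hkA, hk1, hkn⟩ := mem_filter.1 hk
    obtain ⟨e, he1, he2, he3, he4⟩ := four' hkA _ hkn
    have hRw := Rw_le n (g ^ k * f)
    have heEE : e ∈ EE := by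
      rw [hEE, mem_filter, Fintype.mem_piFinset]
      exact ⟨fun γ => by have := he2 γ; rw [mem_range]; omega, he1⟩
    rw [mem_biUnion]
    refine ⟨e, heEE, mem_filter.2 ⟨hkI, hkA, hk1, he3, ?_⟩⟩
    rintro ⟨S, hS, hcl⟩
    obtain ⟨γ, hγ, δ, hδ, hne⟩ := one_lt_card.1 (by omega : 1 < S.card)
    have key : ∀ γ ∈ S, ∀ δ ∈ S, γ < δ → False := by
      intro γ hγ δ hδ hlt
      have h1 := hcl γ hγ δ hδ hlt
      have h2 := he4 γ δ hlt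
      have h3 := he1 hlt
      have h4 := he2 δ
      have h5 : ¬ GdI (4 * K) (g ^ k * f) (e δ - e γ) := by
        intro h6
        exact h2 (mem_filter.2 ⟨mem_Icc.2 ⟨by omega, by omega⟩, h6⟩)
      exact hRle k hkI _ (mem_Icc.2 ⟨by omega, by omega⟩) h5 h1
    rcases lt_or_gt_of_ne hne with hlt | hlt
    · exact key γ hγ δ hδ hlt
    · exact key δ hδ γ hγ hlt
  rw [← hN0]
  calc _ ≤ ((EE.biUnion (fun e => (Ioc u (u + H)).filter (fun k : ℕ => (g ^ k * f).Adm ∧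
        g ^ k * f ≠ 1 ∧ AdE e (g ^ k * f).a (g ^ k * f).d ∧
        ¬ ∃ S : Finset (Fin 4), 1 + 1 ≤ S.card ∧ ∀ γ ∈ S, ∀ δ ∈ S, γ < δ →
          GdR (4 * K) R (g ^ k * f) (e δ - e γ)))).card : ℝ) := by
        rw [Nat.cast_le]
        exact card_le_card hcov
    _ ≤ ∑ e ∈ EE, (((Ioc u (u + H)).filter (fun k : ℕ => (g ^ k * f).Adm ∧ g ^ k * f ≠ 1 ∧
        AdE e (g ^ k * f).a (g ^ k * f).d ∧
        ¬ ∃ S : Finset (Fin 4), 1 + 1 ≤ S.card ∧ ∀ γ ∈ S, ∀ δ ∈ S, γ < δ →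
          GdR (4 * K) R (g ^ k * f) (e δ - e γ))).card : ℝ) := by
        exact_mod_cast card_biUnion_le
    _ ≤ ∑ _e ∈ EE, ε / (EE.card + 1) * N0 := sum_le_sum hbd
    _ = EE.card * (ε / (EE.card + 1) * N0) := by rw [sum_const, nsmul_eq_mul]
    _ ≤ ε * N0 := by
        have h1 : (EE.card : ℝ) * (ε / (EE.card + 1)) ≤ ε := by
          rw [mul_div_assoc', div_le_iff₀ (by positivity)]
          nlinarith
        calc (EE.card : ℝ) * (ε / (EE.card + 1) * N0) = (EE.card * (ε / (EE.card + 1))) * N0 := by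
              ring
          _ ≤ ε * N0 := mul_le_mul_of_nonneg_right h1 (Nat.cast_nonneg _)

end Pool.Agent.K1H50.NP
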