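import Mathlib
import Pool.Agent.K1H50.NP.Pat
import Pool.Agent.W142.TB.All
import Pool.Agent.W142.TF.FinG

/-! Five ninths of the iterates of every map, in windows: exact patterns along narrow progressions. -/

set_option autoImplicit false
open Filter Topology Finset

namespace Pool.Agent.K1H50.NP

open Pool.Agent.Y827.RO Pool.Agent.Y863.AU Pool.Agent.Y863.AA Pool.Agent.W25.IT
open Pool.Agent.H947R3.GM Pool.Agent.W142.TF Pool.Agent.W142.TB

/-- five ninths of the multiples, for an arbitrary set of differences of many classes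
(after `Pool.Agent.TH899.UG.mth`) -/
theorem mth59 (ε : ℝ) (hε : 0 < ε) : ∃ n : ℕ, 1 ≤ n ∧ ∀ (K : ℕ) (G : Set ℕ),
    (∀ H : Fin n → Fin K → ℕ, Function.Injective (fun x : Fin n × Fin K => H x.1 x.2) →
      (∀ g i, (n * K).factorial ∣ H g i) →
      ∃ (F : Finset (Fin n)) (c : Fin n → Fin K), (5 / 18 : ℝ) * n ≤ F.card ∧
        ∀ g ∈ F, ∀ g' ∈ F, H g (c g) < H g' (c g') → H g' (c g') - H g (c g) ∈ G) →
    ∃ M : ℕ, 0 < M ∧ ∀ N : ℕ, 0 < N → M ∣ N → ∃ L : ℕ, ∀ T : ℕ, L ≤ T → ∀ u : ℕ,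
      (5 / 9 - ε) * T ≤ ({k : ℕ | u < k ∧ k ≤ u + T ∧ N * k ∈ G}.ncard : ℝ) := by
  classical
  obtain ⟨β, hβ⟩ : ∃ β : ℝ, β = 5 / 18 := ⟨_, rfl⟩
  have hβ5 : 1 / 5 ≤ β := by rw [hβ]; norm_num
  have hβ2 : β ≤ 1 / 2 := by rw [hβ]; norm_num
  obtain ⟨n₀, hn₀⟩ := s_maiB β hβ5 hβ2 ε hε
  obtain ⟨n, hn⟩ : ∃ n, n = max n₀ 1 := ⟨_, rfl⟩
  have hnn₀ : n₀ ≤ n := by omega
  have hn1 : 1 ≤ n := by omega
  refine ⟨n, hn1, fun K G hQ => ?_⟩
  obtain ⟨M, hM, hall⟩ := windows G (n * K).factorial (Nat.factorial_pos _) (2 * β) ε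
    (fun hall => by
      obtain ⟨Q, A, s, hs, hQ1, hinj, hcr⟩ := hn₀ n hnn₀
        {k : ℤ | (((n * K).factorial : ℕ) : ℤ) * k ∈ Cpl G}
        (fun M hM => by
          obtain ⟨Q, h1, h2, h3⟩ := hall M hM
          exact ⟨Q, h1, h2, fun L₀ => h3 L₀⟩) (n * K)
      -- distinct points
      obtain ⟨σ, hσ1, hσ2⟩ := select_aux n K (fun g i => (Q g : ℤ) * A g i) (fun g => by
        intro x hx y hy hxy
        have hQ0 : (Q g : ℤ) ≠ 0 := by have := hQ1 g; omega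
        exact hinj g hx hy (mul_left_cancel₀ hQ0 hxy)) n le_rfl
      obtain ⟨H, C, hH⟩ := points n K (n * K).factorial Q (fun g i => A g (σ g i))
      have hM0 : (((n * K).factorial : ℕ) : ℤ) ≠ 0 := by exact_mod_cast (Nat.factorial_pos (n * K)).ne'
      have hHinj : ∀ (g g' : Fin n) (i i' : Fin K), H g i = H g' i' → g = g' ∧ i = i' := by
        intro g g' i i' h
        have e : (((n * K).factorial : ℕ) : ℤ) * (Q g * A g (σ g i) + C) =
            ((n * K).factorial : ℕ) * (Q g' * A g' (σ g' i') + C) := by rw [← hH, ← hH, h]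
        have e1 := mul_left_cancel₀ hM0 e
        have e2 : (Q g : ℤ) * A g (σ g i) = Q g' * A g' (σ g' i') := by linarith
        have e3 := hσ2 g g.2 g' g'.2 i i.2 i' i'.2 e2
        exact ⟨Fin.ext e3.1, Fin.ext e3.2⟩
      obtain ⟨S, c, hS, hB⟩ := hQ H (fun x y h => by
        have := hHinj x.1 y.1 x.2 y.2 h
        exact Prod.ext this.1 this.2) (fun g i => by
        have h1 : (((n * K).factorial : ℕ) : ℤ) ∣ (H g i : ℤ) := by
          rw [hH]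
          exact dvd_mul_right _ _
        exact_mod_cast h1)
      obtain ⟨i, hi, j, hj, hij⟩ := hs.2 (S.map Fin.valEmbedding) (fun x hx => by
        rw [Finset.mem_map] at hx
        obtain ⟨y, _, rfl⟩ := hx
        exact mem_range.2 y.2) (by
          rw [card_map, hβ]
          exact hS)
      rw [Finset.mem_map] at hi hj
      obtain ⟨i', hi', rfl⟩ := hi
      obtain ⟨j', hj', rfl⟩ := hj
      have hd := hcr j' j'.2 i' hij (σ j' (c j')) (σ i' (c i')) (hσ1 _ j'.2 _ (c j').2) (hσ1 _ i'.2 _ (c i').2)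
      have h := not_Cpl C (hH j' (c j')) (hH i' (c i')) hd
      rcases lt_or_gt_of_ne h.1 with hlt | hlt
      · exact h.2.1 hlt (hB j' hj' i' hi' hlt)
      · exact h.2.2 hlt (hB i' hi' j' hj' hlt))
  refine ⟨M, hM, fun N hN hd => ?_⟩
  obtain ⟨L, hL⟩ := hall N hN hd
  refine ⟨L, fun T hT u => le_trans ?_ (hL T hT u)⟩
  exact mul_le_mul_of_nonneg_right (by rw [hβ]; linarith) (Nat.cast_nonneg _)

/-- local conditions for the iterates of a map with very divisible exponents -/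
theorem loc_pow {n K : ℕ} {f : Af} (hA : f.Adm) (H : Fin n → Fin K → ℕ)
    (hdv : ∀ g i, (n * K).factorial ∣ H g i) {p : ℕ} (hp : p.Prime) :
    ∃ y : ℤ, ∀ γ i, ¬ (p : ℤ) ∣ (f ^ H γ i).d * y + (f ^ H γ i).a := by
  have h1 := iter_admissible (ι := Fin n × Fin K) hA.1 hA.2 (fun z => H z.1 z.2) hp (by
    intro hp3 hpd hpa
    by_cases hpn : p ≤ n * K
    · refine iter_miss (fun z : Fin n × Fin K => H z.1 z.2) hp hpd hpa 1 (fun z hz => ?_)
      have h2 : p ∣ H z.1 z.2 := (Nat.dvd_factorial hp.pos hpn).trans (hdv z.1 z.2)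
      have h3 : H z.1 z.2 % p = 1 % p := hz
      rw [Nat.mod_eq_zero_of_dvd h2, Nat.mod_eq_of_lt hp.one_lt] at h3
      omega
    · refine avoid (fun z : Fin n × Fin K => f.d ^ H z.1 z.2) (fun z => itc f.a f.d (H z.1 z.2)) hp
        (fun z hz => ?_) (by
          rw [Fintype.card_prod, Fintype.card_fin, Fintype.card_fin]; omega)
      have hpp := Nat.prime_iff_prime_int.1 hp
      have h2 := hpp.dvd_of_dvd_pow hz
      have h3 := dvd_sub h2 hpd
      rw [sub_sub_cancel] at h3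
      exact hpp.not_isUnit (isUnit_of_dvd_one h3))
  obtain ⟨y, hy⟩ := h1
  refine ⟨y, fun γ i hi => hy (γ, i) ?_⟩
  rw [Af.pow_d, Af.pow_a] at hi
  exact hi

open Classical in
/-- **five ninths of the iterates** -/
theorem winF (ε : ℝ) (hε : 0 < ε) : ∃ J : ℕ, ∀ f : Af, 1 ≤ f.d → f.Adm → f ≠ 1 →
    ∃ M : ℕ, 0 < M ∧ ∀ N : ℕ, 0 < N → M ∣ N → ∃ L : ℕ, ∀ T : ℕ, L ≤ T → ∀ u : ℕ,
      (5 / 9 - ε) * T ≤ ({k : ℕ | u < k ∧ k ≤ u + T ∧ GdI J f (N * k)}.ncard : ℝ) := by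
  obtain ⟨n, hn1, hm⟩ := mth59 ε hε
  obtain ⟨M', hM'⟩ : ∃ M', M' = ⌈(5 / 18 : ℝ) * n⌉₊ - 1 := ⟨_, rfl⟩
  have hn1' : (1 : ℝ) ≤ n := by exact_mod_cast hn1
  have hβn : 0 < (5 / 18 : ℝ) * n := by positivity
  have hceil : 0 < ⌈(5 / 18 : ℝ) * n⌉₊ := Nat.ceil_pos.2 hβn
  have hM'1 : M' + 1 = ⌈(5 / 18 : ℝ) * n⌉₊ := by omega
  have hM'lt : (M' : ℝ) < (5 / 18 : ℝ) * n := by
    have h := Nat.ceil_lt_add_one hβn.le
    have h2 : ((M' + 1 : ℕ) : ℝ) = (⌈(5 / 18 : ℝ) * n⌉₊ : ℝ) := by rw [hM'1]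
    push_cast at h2
    linarith
  obtain ⟨K, hK, hclq⟩ := clq n M' hn1 (by linarith)
  refine ⟨n * K, fun f hfd hfA hf1 => ?_⟩
  have hfa : f.a ≠ 0 := Af.a_ne hfA hf1 hfd
  refine hm K {k : ℕ | GdI (n * K) f k} (fun H hinj hdv => ?_)
  -- a common number of iterates
  have hR : ∀ z : (Fin n × Fin K) × (Fin n × Fin K), ∃ R : ℕ,
      ¬ GdI (n * K) f (H z.2.1 z.2.2 - H z.1.1 z.1.2) → H z.2.1 z.2.2 - H z.1.1 z.1.2 ≤ R ∧
      ¬ GdR (n * K) R f (H z.2.1 z.2.2 - H z.1.1 z.1.2) := by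
    intro z
    by_cases hz : GdI (n * K) f (H z.2.1 z.2.2 - H z.1.1 z.1.2)
    · exact ⟨0, fun h => absurd hz h⟩
    · have h1 : ¬ ∀ R, H z.2.1 z.2.2 - H z.1.1 z.1.2 ≤ R →
          GdR (n * K) R f (H z.2.1 z.2.2 - H z.1.1 z.1.2) := fun h => hz (gdI_of h)
      push Not at h1
      obtain ⟨R, hR1, hR2⟩ := h1
      exact ⟨R, fun _ => ⟨hR1, hR2⟩⟩
  choose Rf hRf using hR
  obtain ⟨R, hRdef⟩ : ∃ R : ℕ, R = ∑ z : (Fin n × Fin K) × (Fin n × Fin K),
    (Rf z + (H z.2.1 z.2.2 - H z.1.1 z.1.2)) := ⟨_, rfl⟩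
  have hRz : ∀ z : (Fin n × Fin K) × (Fin n × Fin K),
      Rf z + (H z.2.1 z.2.2 - H z.1.1 z.1.2) ≤ R := by
    intro z
    rw [hRdef]
    exact single_le_sum (f := fun z : (Fin n × Fin K) × (Fin n × Fin K) =>
      (Rf z + (H z.2.1 z.2.2 - H z.1.1 z.1.2))) (fun _ _ => Nat.zero_le _) (mem_univ z)
  obtain ⟨S, σ, hS, hcl⟩ := hclq R (fun γ i => f ^ H γ i) (fun γ i => by
      rw [Af.pow_d]
      have h2 : 0 < f.d ^ H γ i := by
        have : 0 < f.d := by omega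
        positivity
      omega) (by
      intro x y hxy
      apply hinj
      have h1 : f ^ H x.1 x.2 = f ^ H y.1 y.2 := hxy
      have h2 := congrArg Af.d h1
      have h3 := congrArg Af.a h1
      rw [Af.pow_d, Af.pow_d] at h2
      rw [Af.pow_a, Af.pow_a] at h3
      exact itc_inj hfd hfa h2 h3)
    (fun p hp => loc_pow hfA H hdv hp) {f} (fun h hh => by
      rw [mem_singleton] at hh
      rw [hh]
      exact ⟨hfd, hfa⟩)
  refine ⟨S, σ, ?_, fun γ hγ δ hδ hlt => ?_⟩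
  · refine (Nat.le_ceil _).trans ?_
    rw [← hM'1]
    exact_mod_cast hS
  · have h1 := hcl γ hγ δ hδ f (mem_singleton_self _) (H δ (σ δ) - H γ (σ γ)) (by omega) (by
      have := hRz ((γ, σ γ), (δ, σ δ))
      simp only at this
      omega) (by
      rw [← pow_add]
      congr 1
      omega)
    show GdI (n * K) f (H δ (σ δ) - H γ (σ γ))
    by_contra hng
    obtain ⟨h2, h3⟩ := hRf ((γ, σ γ), (δ, σ δ)) hng
    have h4 := hRz ((γ, σ γ), (δ, σ δ))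
    simp only at h2 h3 h4
    exact h3 (h1.mono h2 (by omega))

end Pool.Agent.K1H50.NP
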